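import Pool.Agent.K3h22.EX.Stm6

/-!
# From flags over all rational subspaces to one sector
-/

set_option autoImplicit false

open Filter Topology Set

noncomputable section

namespace Pool.Agent.K3h25.ET3

open Pool.Agent.K3h22.EX

theorem continuous_pr {n : ℕ} (a : Fin n →₀ ℕ) : Continuous (pr a) := by
  unfold pr
  fun_prop

theorem isClosed_Sec {n : ℕ} {κ : Type} (a b : κ → (Fin n →₀ ℕ)) (S : κ → Finset (Fin n →₀ ℕ)) :
    IsClosed (Sec a b S) := by
  have h1 : Sec a b S = ⋂ k, ({w | pr (a k) w = pr (b k) w} ∩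
      ⋂ e : {e // e ∈ S k}, {w | pr e.1 w ≤ pr (a k) w}) := by
    ext w
    simp only [Sec, mem_ofPred_eq, mem_iInter, mem_inter_iff, Subtype.forall]
  rw [h1]
  refine isClosed_iInter fun k => ?_
  refine (isClosed_eq (continuous_pr _) (continuous_pr _)).inter ?_
  exact isClosed_iInter fun e => isClosed_le (continuous_pr _) (continuous_pr _)

theorem pr_smul {n : ℕ} (a : Fin n →₀ ℕ) (c : ℝ) (w : Fin n → ℝ) : pr a (c • w) = c * pr a w := by
  unfold pr
  rw [Finset.mul_sum]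
  refine Finset.sum_congr rfl fun i _ => ?_
  rw [Pi.smul_apply, smul_eq_mul]
  ring

theorem Sec_smul {n : ℕ} {κ : Type} {a b : κ → (Fin n →₀ ℕ)} {S : κ → Finset (Fin n →₀ ℕ)}
    {w : Fin n → ℝ} (hw : w ∈ Sec a b S) {c : ℝ} (hc : 0 ≤ c) : c • w ∈ Sec a b S := by
  intro k
  refine ⟨?_, fun e he => ?_⟩
  · rw [pr_smul, pr_smul, (hw k).1]
  · rw [pr_smul, pr_smul]
    exact mul_le_mul_of_nonneg_left ((hw k).2 e he) hc

/-- one flag -/
theorem one_flag {n d : ℕ} {κ : Type} [Finite κ] (S : κ → Finset (Fin n →₀ ℕ))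
    (w : Fin (d + 1) → Fin n → ℝ) (ε₀ : ℝ) (hε₀ : 0 < ε₀)
    (h : ∀ ε : ℝ, 0 < ε → ε < ε₀ → ∀ k,
      Twice (S k) (fun j => ∑ i : Fin (d + 1), ε ^ (i : ℕ) * w i j)) :
    ∃ τ : (k : κ) → {e // e ∈ S k} × {e // e ∈ S k}, (∀ k, (τ k).1 ≠ (τ k).2) ∧
      w 0 ∈ Sec (fun k => ((τ k).1 : Fin n →₀ ℕ)) (fun k => ((τ k).2 : Fin n →₀ ℕ)) S ∧
      ∀ i, w i ∈ Submodule.span ℝ
        (Sec (fun k => ((τ k).1 : Fin n →₀ ℕ)) (fun k => ((τ k).2 : Fin n →₀ ℕ)) S) := by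
  set u : ℝ → Fin n → ℝ := fun ε j => ∑ i : Fin (d + 1), ε ^ (i : ℕ) * w i j with hu
  have hev : ∀ᶠ ε in 𝓝[>] (0 : ℝ), ∃ τ : (k : κ) → {e // e ∈ S k} × {e // e ∈ S k},
      (∀ k, (τ k).1 ≠ (τ k).2) ∧ u ε ∈ Sec (fun k => ((τ k).1 : Fin n →₀ ℕ))
        (fun k => ((τ k).2 : Fin n →₀ ℕ)) S := by
    filter_upwards [Ioo_mem_nhdsGT hε₀] with ε hε
    have h1 := h ε hε.1 hε.2
    choose a ha b hb hab heq hle using h1
    refine ⟨fun k => (⟨a k, ha k⟩, ⟨b k, hb k⟩), fun k hk => hab k (congrArg Subtype.val hk), ?_⟩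
    intro k
    exact ⟨heq k, hle k⟩
  obtain ⟨τ, hτ⟩ : ∃ τ : (k : κ) → {e // e ∈ S k} × {e // e ∈ S k}, ∃ᶠ ε in 𝓝[>] (0 : ℝ),
      (∀ k, (τ k).1 ≠ (τ k).2) ∧ u ε ∈ Sec (fun k => ((τ k).1 : Fin n →₀ ℕ))
        (fun k => ((τ k).2 : Fin n →₀ ℕ)) S := by
    by_contra hcon
    push Not at hcon
    rw [← eventually_all] at hcon
    obtain ⟨ε, h1, τ, h2⟩ := (hcon.and hev).exists
    exact h1 τ h2.1 h2.2
  have hne : ∀ k, (τ k).1 ≠ (τ k).2 := by
    obtain ⟨ε, h1⟩ := hτ.exists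
    exact h1.1
  have hfr : ∃ᶠ ε in 𝓝[>] (0 : ℝ), u ε ∈ Sec (fun k => ((τ k).1 : Fin n →₀ ℕ))
        (fun k => ((τ k).2 : Fin n →₀ ℕ)) S := hτ.mono fun ε h => h.2
  refine ⟨τ, hne, ?_, ?_⟩
  · have hcont : Continuous u := by
      rw [hu]
      fun_prop
    have h0 : u 0 = w 0 := by
      funext j
      rw [hu]
      change ∑ i : Fin (d + 1), (0 : ℝ) ^ (i : ℕ) * w i j = w 0 j
      rw [Fin.sum_univ_succ]
      simp
    rw [← h0]
    exact (isClosed_Sec _ _ _).mem_of_frequently_of_tendsto hfr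
      ((hcont.tendsto 0).mono_left nhdsWithin_le_nhds)
  · intro i
    by_contra hi
    obtain ⟨f, hf, hfU⟩ := Submodule.exists_le_ker_of_notMem hi
    set P : Polynomial ℝ := ∑ i : Fin (d + 1), Polynomial.C (f (w i)) * Polynomial.X ^ (i : ℕ)
      with hP
    have hPe : ∀ ε, P.eval ε = f (u ε) := by
      intro ε
      have h1 : u ε = ∑ i : Fin (d + 1), ε ^ (i : ℕ) • w i := by
        funext j
        rw [Finset.sum_apply]
        rfl
      rw [h1, map_sum, hP, Polynomial.eval_finsetSum]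
      refine Finset.sum_congr rfl fun i _ => ?_
      rw [map_smul, smul_eq_mul, Polynomial.eval_mul, Polynomial.eval_C, Polynomial.eval_pow,
        Polynomial.eval_X, mul_comm]
    have hP0 : P = 0 := by
      refine Polynomial.eq_zero_of_infinite_isRoot P ?_
      intro hfin
      have h1 : ∀ᶠ ε in 𝓝[>] (0 : ℝ), ε ∉ {x | P.IsRoot x} := by
        have h2 : (({x | P.IsRoot x} \ {0} : Set ℝ))ᶜ ∈ 𝓝 (0 : ℝ) := by
          refine (hfin.subset sdiff_subset).isClosed.isOpen_compl.mem_nhds ?_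
          simp
        filter_upwards [nhdsWithin_le_nhds h2, self_mem_nhdsWithin] with ε h3 h4 h5
        exact h3 ⟨h5, (ne_of_gt h4)⟩
      obtain ⟨ε, h2, h3⟩ := (hfr.and_eventually h1).exists
      apply h3
      change P.eval ε = 0
      rw [hPe]
      exact hfU (Submodule.subset_span h2)
    apply hf
    have h1 : P.coeff (i : ℕ) = f (w i) := by
      rw [hP, Polynomial.finsetSum_coeff]
      rw [Finset.sum_eq_single i]
      · simp
      · intro j _ hj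
        rw [Polynomial.coeff_C_mul_X_pow, if_neg]
        exact fun h => hj (Fin.ext h.symm)
      · intro h
        exact absurd (Finset.mem_univ _) h
    rw [← h1, hP0, Polynomial.coeff_zero]

theorem t_CONE1 : S_CONE1 := by
  intro n d c N κ _ S H
  -- the flags
  have H1 : ∀ K : ℕ, ∃ w : Fin (d + 1) → Fin n → ℝ, LinearIndependent ℝ w ∧
      (∀ i, ∑ j, ((round ((K + 1 : ℝ) * N i j) : ℤ) : ℝ) * w 0 j = 0) ∧
      ∃ τ : (k : κ) → {e // e ∈ S k} × {e // e ∈ S k}, (∀ k, (τ k).1 ≠ (τ k).2) ∧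
      w 0 ∈ Sec (fun k => ((τ k).1 : Fin n →₀ ℕ)) (fun k => ((τ k).2 : Fin n →₀ ℕ)) S ∧
      ∀ i, w i ∈ Submodule.span ℝ
        (Sec (fun k => ((τ k).1 : Fin n →₀ ℕ)) (fun k => ((τ k).2 : Fin n →₀ ℕ)) S) := by
    intro K
    obtain ⟨w, hw, hm, ε₀, hε₀, h⟩ := H fun i j => round ((K + 1 : ℝ) * N i j)
    refine ⟨fun i j => (w i j : ℝ), ?_, ?_, ?_⟩
    · have h1 := (linearIndependent_algebraMap_comp_iff (R := ℚ) (S := ℝ) (v := w)).mpr hw
      exact h1
    · intro i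
      have h1 := congrArg (Rat.cast : ℚ → ℝ) (hm i)
      push_cast at h1
      exact h1
    · exact one_flag S _ ε₀ hε₀ h
  choose w hw hm τ hτ hw0 hwi using H1
  obtain ⟨σ, hσ⟩ : ∃ σ : (k : κ) → {e // e ∈ S k} × {e // e ∈ S k}, ∃ᶠ K in atTop, τ K = σ := by
    by_contra hcon
    push Not at hcon
    rw [← eventually_all] at hcon
    obtain ⟨K, h1⟩ := hcon.exists
    exact h1 (τ K) rfl
  obtain ⟨φ, hφ, hφσ⟩ := extraction_of_frequently_atTop hσ
  have hne : ∀ K, w K 0 ≠ 0 := fun K => (hw K).ne_zero 0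
  have hn0 : ∀ K, ‖w K 0‖ ≠ 0 := fun K => norm_ne_zero_iff.mpr (hne K)
  set v : ℕ → Fin n → ℝ := fun l => ‖w (φ l) 0‖⁻¹ • w (φ l) 0 with hv
  have hv1 : ∀ l, ‖v l‖ = 1 := by
    intro l
    rw [hv]
    change ‖‖w (φ l) 0‖⁻¹ • w (φ l) 0‖ = 1
    rw [norm_smul, norm_inv, norm_norm, inv_mul_cancel₀ (hn0 _)]
  have hvs : ∀ l, v l ∈ Metric.sphere (0 : Fin n → ℝ) 1 := by
    intro l
    rw [mem_sphere_zero_iff_norm]
    exact hv1 l
  obtain ⟨w₀, hw₀, ψ, hψ, hlim⟩ := (isCompact_sphere (0 : Fin n → ℝ) 1).tendsto_subseq hvs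
  have hSec : ∀ l, v l ∈ Sec (fun k => ((σ k).1 : Fin n →₀ ℕ))
      (fun k => ((σ k).2 : Fin n →₀ ℕ)) S := by
    intro l
    have h1 := hw0 (φ l)
    rw [hφσ l] at h1
    exact Sec_smul h1 (by positivity)
  refine ⟨fun k => (σ k).1, fun k => (σ k).2, ?_, w₀, ?_, ?_, ?_, ?_⟩
  · intro k
    refine ⟨(σ k).1.2, (σ k).2.2, fun h => ?_⟩
    have h1 := hτ (φ 0) k
    rw [hφσ 0] at h1
    exact h1 (Subtype.ext h)
  · exact (isClosed_Sec _ _ _).mem_of_tendsto hlim (Eventually.of_forall fun l => hSec _)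
  · intro h
    rw [mem_sphere_zero_iff_norm, h, norm_zero] at hw₀
    exact zero_ne_one hw₀
  · intro i
    have hcont : Continuous fun x : Fin n → ℝ => ∑ j, N i j * x j := by fun_prop
    have h1 := (hcont.tendsto w₀).comp hlim
    refine tendsto_nhds_unique h1 ?_
    have hvj : ∀ l j, |v l j| ≤ 1 := by
      intro l j
      rw [← hv1 l]
      exact norm_le_pi_norm (v l) j
    have hbound : ∀ l, |∑ j, N i j * v l j| ≤ n * ((φ l : ℝ) + 1)⁻¹ := by
      intro l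
      have hpos : (0 : ℝ) < (φ l : ℝ) + 1 := by positivity
      have h2 : ∑ j, ((round (((φ l : ℕ) + 1 : ℝ) * N i j) : ℤ) : ℝ) * v l j = 0 := by
        have h3 := hm (φ l) i
        have h4 : ∑ j, ((round (((φ l : ℕ) + 1 : ℝ) * N i j) : ℤ) : ℝ) * v l j =
            ‖w (φ l) 0‖⁻¹ * ∑ j, ((round (((φ l : ℕ) + 1 : ℝ) * N i j) : ℤ) : ℝ) *
              w (φ l) 0 j := by
          rw [Finset.mul_sum]
          refine Finset.sum_congr rfl fun j _ => ?_
          rw [hv]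
          change _ * (‖w (φ l) 0‖⁻¹ * w (φ l) 0 j) = _
          ring
        rw [h4, h3, mul_zero]
      have h5 : ∑ j, N i j * v l j = ((φ l : ℝ) + 1)⁻¹ * ∑ j, (((φ l : ℝ) + 1) * N i j -
          (round (((φ l : ℕ) + 1 : ℝ) * N i j) : ℤ)) * v l j := by
        have h6 : ∑ j, (((φ l : ℝ) + 1) * N i j -
            (round (((φ l : ℕ) + 1 : ℝ) * N i j) : ℤ)) * v l j =
            ((φ l : ℝ) + 1) * ∑ j, N i j * v l j -
              ∑ j, ((round (((φ l : ℕ) + 1 : ℝ) * N i j) : ℤ) : ℝ) * v l j := by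
          rw [Finset.mul_sum, ← Finset.sum_sub_distrib]
          refine Finset.sum_congr rfl fun j _ => ?_
          ring
        rw [h6, h2, sub_zero, ← mul_assoc, inv_mul_cancel₀ hpos.ne', one_mul]
      rw [h5, abs_mul, abs_of_pos (inv_pos.mpr hpos), mul_comm]
      refine mul_le_mul_of_nonneg_right ?_ (inv_pos.mpr hpos).le
      refine (Finset.abs_sum_le_sum_abs _ _).trans ?_
      have h7 : ∀ j ∈ (Finset.univ : Finset (Fin n)), |(((φ l : ℝ) + 1) * N i j -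
            (round (((φ l : ℕ) + 1 : ℝ) * N i j) : ℤ)) * v l j| ≤ 1 := by
        intro j _
        rw [abs_mul]
        have h8 := abs_sub_round ((((φ l : ℕ) : ℝ) + 1) * N i j)
        have h9 := hvj l j
        nlinarith [abs_nonneg (v l j), abs_nonneg ((((φ l : ℕ) : ℝ) + 1) * N i j -
          (round ((((φ l : ℕ) : ℝ) + 1) * N i j) : ℤ))]
      refine (Finset.sum_le_sum h7).trans ?_
      simp
    rw [tendsto_zero_iff_abs_tendsto_zero]
    have h10 : Tendsto (fun l => (n : ℝ) * ((φ (ψ l) : ℝ) + 1)⁻¹) atTop (𝓝 0) := by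
      have h11 : Tendsto (fun l => (φ (ψ l) : ℝ) + 1) atTop atTop :=
        tendsto_atTop_add_const_right _ _
          (tendsto_natCast_atTop_atTop.comp (hφ.tendsto_atTop.comp hψ.tendsto_atTop))
      have h12 := (tendsto_inv_atTop_zero.comp h11).const_mul (n : ℝ)
      rw [mul_zero] at h12
      exact h12
    refine squeeze_zero (fun l => abs_nonneg _) (fun l => ?_) h10
    exact hbound (ψ l)
  · refine ⟨w (φ 0), hw (φ 0), fun i => ?_⟩
    have h1 := hwi (φ 0) i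
    rw [hφσ 0] at h1
    exact h1

end Pool.Agent.K3h25.ET3
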